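import Pool.Agent.Helper61.ZD.Defs

/-!
# Swarm ZD, part CPT: compactness in the space of polynomials
-/

set_option autoImplicit false

namespace Pool.ZD

open MvPolynomial Filter Topology

namespace Cpt

variable {N : ℕ}

/-- the exponents of degree at most `M` -/
noncomputable def expo (N M : ℕ) : Finset (Fin N →₀ ℕ) :=
  (Finsupp.finite_of_degree_le (σ := Fin N) M).toFinset

theorem mem_expo {M : ℕ} {s : Fin N →₀ ℕ} : s ∈ expo N M ↔ s.degree ≤ M := by
  simp [expo]

theorem sum_eq_degree (s : Fin N →₀ ℕ) : (s.sum fun _ e => e) = s.degree := by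
  simp [Finsupp.degree_apply, Finsupp.sum]

theorem sum_id_eq_degree (s : Fin N →₀ ℕ) : (s.sum fun _ => id) = s.degree := by
  simp [Finsupp.degree_apply, Finsupp.sum]

theorem eval_poly {E : Finset (Fin N →₀ ℕ)} (c : E → ℝ) (y : Fin N → ℝ) :
    eval y (poly c) = ∑ m : E, c m * ∏ i, y i ^ ((m : Fin N →₀ ℕ) i) := by
  unfold poly
  rw [map_sum]
  refine Finset.sum_congr rfl fun m _ => ?_
  rw [eval_monomial]
  congr 1
  exact Finsupp.prod_fintype _ _ fun i => by simp

theorem cont_eval (E : Finset (Fin N →₀ ℕ)) :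
    Continuous fun p : (E → ℝ) × (Fin N → ℝ) => eval p.2 (poly p.1) := by
  simp only [eval_poly]
  fun_prop

theorem cont_eval_left (E : Finset (Fin N →₀ ℕ)) (x : Fin N → ℝ) :
    Continuous fun c : E → ℝ => eval x (poly c) := by
  simp only [eval_poly]
  fun_prop

theorem coeff_poly {E : Finset (Fin N →₀ ℕ)} (c : E → ℝ) (s : E) :
    coeff (s : Fin N →₀ ℕ) (poly c) = c s := by
  unfold poly
  rw [coeff_sum]
  simp only [coeff_monomial]
  rw [Finset.sum_eq_single s]
  · simp
  · intro b _ hb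
    rw [if_neg]
    intro h
    exact hb (Subtype.ext h)
  · intro h
    exact absurd (Finset.mem_univ s) h

theorem poly_coeff {E : Finset (Fin N →₀ ℕ)} (g : MvPolynomial (Fin N) ℝ) (hg : g.support ⊆ E) :
    poly (fun s : E => coeff (s : Fin N →₀ ℕ) g) = g := by
  unfold poly
  rw [Finset.sum_coe_sort E (fun s => monomial s (coeff s g))]
  conv_rhs => rw [g.as_sum]
  symm
  refine Finset.sum_subset hg fun s _ hs => ?_
  rw [notMem_support_iff.mp hs, monomial_zero]

theorem support_subset {M : ℕ} {g : MvPolynomial (Fin N) ℝ} (hg : g.totalDegree ≤ M) :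
    g.support ⊆ expo N M := by
  intro s hs
  rw [mem_expo, ← sum_eq_degree]
  exact (le_totalDegree hs).trans hg

theorem totalDegree_poly_le {E : Finset (Fin N →₀ ℕ)} (c : E → ℝ) (M : ℕ)
    (hM : ∀ m ∈ E, m.degree ≤ M) : (poly c).totalDegree ≤ M := by
  unfold poly
  refine totalDegree_finsetSum_le fun m _ => ?_
  refine (totalDegree_monomial_le _ _).trans ?_
  rw [sum_id_eq_degree]
  exact hM m m.2

/-- the scalar product of `v` with the polynomial `poly c * monomial h 1` -/
noncomputable def gram {E S : Finset (Fin N →₀ ℕ)} (c : E → ℝ) (v : S → ℝ)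
    (h : Fin N →₀ ℕ) : ℝ :=
  ∑ s : S, v s * coeff (s : Fin N →₀ ℕ) (poly c * monomial h 1)

theorem cont_gram (E S : Finset (Fin N →₀ ℕ)) (h : Fin N →₀ ℕ) :
    Continuous fun p : (E → ℝ) × (S → ℝ) => gram p.1 p.2 h := by
  have key : ∀ (c : E → ℝ) (s : S), coeff (s : Fin N →₀ ℕ) (poly c * monomial h 1) =
      ∑ m : E, if (m : Fin N →₀ ℕ) + h = s then c m else 0 := by
    intro c s
    unfold poly
    rw [Finset.sum_mul, coeff_sum]
    refine Finset.sum_congr rfl fun m _ => ?_
    rw [monomial_mul, coeff_monomial, mul_one]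
  unfold gram
  simp only [key]
  refine continuous_finsetSum _ fun s _ => ?_
  refine Continuous.mul (by fun_prop) ?_
  refine continuous_finsetSum _ fun m _ => ?_
  split_ifs
  · fun_prop
  · fun_prop

/-- normalisation: a polynomial not divisible by `poly c` can be changed to one orthogonal to
the multiples of `poly c` -/
theorem normalise {E : Finset (Fin N →₀ ℕ)} (c : E → ℝ) (D M : ℕ) (hDM : D ≤ M)
    (hM : ∀ m ∈ E, m.degree + D ≤ M) (g : MvPolynomial (Fin N) ℝ) (hg : g.totalDegree ≤ D)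
    (hdvd : ¬ poly c ∣ g) :
    ∃ v : expo N M → ℝ, ∑ s, v s ^ 2 = 1 ∧ (∀ h ∈ expo N D, gram c v h = 0) ∧
      ∀ x : Fin N → ℝ, eval x (poly c) = 0 → eval x g = 0 → eval x (poly v) = 0 := by
  classical
  let V := EuclideanSpace ℝ (expo N M)
  let toV : MvPolynomial (Fin N) ℝ → V := fun q => WithLp.toLp 2 fun s : expo N M =>
    coeff (s : Fin N →₀ ℕ) q
  let W : Submodule ℝ V := Submodule.span ℝ
    ((fun h => toV (poly c * monomial h 1)) '' (expo N D : Set (Fin N →₀ ℕ)))
  have hdeg : ∀ h ∈ expo N D, (poly c * monomial h (1 : ℝ)).totalDegree ≤ M := by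
    intro h hh
    by_cases hE : E.Nonempty
    · obtain ⟨m, hm⟩ := hE
      have h1 : (poly c).totalDegree ≤ M - D := by
        refine totalDegree_poly_le c _ fun m hm => ?_
        have := hM m hm
        omega
      have h2 : (monomial h (1 : ℝ)).totalDegree ≤ D := by
        refine (totalDegree_monomial_le _ _).trans ?_
        rw [sum_id_eq_degree]
        exact mem_expo.mp hh
      refine (totalDegree_mul _ _).trans ?_
      omega
    · have hE' : E = ∅ := Finset.not_nonempty_iff_eq_empty.mp hE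
      have : poly c = 0 := by
        unfold poly
        subst hE'
        simp
      rw [this]
      simp
  have hW : ∀ w ∈ W, poly c ∣ poly (fun s => w.ofLp s) := by
    intro w hw
    induction hw using Submodule.span_induction with
    | mem x hx =>
      obtain ⟨h, hh, rfl⟩ := hx
      have : poly (fun s => (toV (poly c * monomial h 1)).ofLp s) = poly c * monomial h 1 :=
        poly_coeff _ (support_subset (hdeg h hh))
      simp only
      rw [this]
      exact dvd_mul_right _ _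
    | zero =>
      have : poly (fun s => (0 : V).ofLp s) = 0 := by
        unfold poly
        simp
      rw [this]
      exact dvd_zero _
    | add x y _ _ hx hy =>
      have : poly (fun s => (x + y).ofLp s) = poly (fun s => x.ofLp s) + poly fun s => y.ofLp s := by
        unfold poly
        rw [← Finset.sum_add_distrib]
        refine Finset.sum_congr rfl fun s _ => ?_
        rw [← map_add]
        rfl
      rw [this]
      exact dvd_add hx hy
    | smul a x _ hx =>
      have : poly (fun s => (a • x).ofLp s) = a • poly (fun s => x.ofLp s) := by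
        unfold poly
        rw [Finset.smul_sum]
        refine Finset.sum_congr rfl fun s _ => ?_
        rw [smul_monomial]
        rfl
      rw [this]
      obtain ⟨q, hq⟩ := hx
      exact ⟨a • q, by rw [hq, mul_smul_comm]⟩
  obtain ⟨w, hw, z, hz, hwz⟩ := W.exists_add_mem_mem_orthogonal (toV g)
  have hgp : poly (fun s => (toV g).ofLp s) = g :=
    poly_coeff _ (support_subset (hg.trans hDM))
  have hsplit : g = poly (fun s => w.ofLp s) + poly (fun s => z.ofLp s) := by
    rw [← hgp, hwz]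
    unfold poly
    rw [← Finset.sum_add_distrib]
    refine Finset.sum_congr rfl fun s _ => ?_
    rw [← map_add]
    rfl
  have hz0 : z ≠ 0 := by
    rintro rfl
    apply hdvd
    have h0 : poly (fun s => (0 : V).ofLp s) = 0 := by
      unfold poly
      simp
    rw [hsplit, h0, add_zero]
    exact hW w hw
  have hn : ‖z‖ ≠ 0 := norm_ne_zero_iff.mpr hz0
  have hn2 : ∑ s, z.ofLp s ^ 2 = ‖z‖ ^ 2 := by
    rw [EuclideanSpace.norm_sq_eq]
    simp
  refine ⟨fun s => ‖z‖⁻¹ * z.ofLp s, ?_, ?_, ?_⟩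
  · simp only [mul_pow]
    rw [← Finset.mul_sum, hn2]
    field_simp
  · intro h hh
    have h1 := (Submodule.mem_orthogonal W z).mp hz (toV (poly c * monomial h 1))
      (Submodule.subset_span ⟨h, hh, rfl⟩)
    unfold gram
    have h2 : ∑ s : expo N M, z.ofLp s * coeff (s : Fin N →₀ ℕ) (poly c * monomial h 1) = 0 := by
      rw [← h1, EuclideanSpace.inner_eq_star_dotProduct]
      simp [dotProduct, toV]
    simp only [mul_assoc]
    rw [← Finset.mul_sum, h2, mul_zero]
  · intro x hx hgx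
    have h1 : eval x (poly fun s => w.ofLp s) = 0 := by
      obtain ⟨q, hq⟩ := hW w hw
      rw [hq, map_mul, hx, zero_mul]
    have h2 : eval x (poly fun s => z.ofLp s) = 0 := by
      have := hgx
      rw [hsplit, map_add, h1, zero_add] at this
      exact this
    rw [eval_poly] at h2 ⊢
    simp only [mul_assoc]
    rw [← Finset.mul_sum, h2, mul_zero]

/-- an intermediate value -/
theorem exists_zero (P : MvPolynomial (Fin N) ℝ) (u w y : Fin N → ℝ) (δ : ℝ)
    (hu : ∀ i, |u i - y i| < δ) (hw : ∀ i, |w i - y i| < δ) (h1 : 0 < eval u P)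
    (h2 : eval w P < 0) : ∃ z : Fin N → ℝ, (∀ i, |z i - y i| < δ) ∧ eval z P = 0 := by
  let γ : ℝ → Fin N → ℝ := fun t i => u i + t * (w i - u i)
  have hc : ContinuousOn (fun t => eval (γ t) P) (Set.Icc 0 1) := by
    apply Continuous.continuousOn
    have : Continuous fun x : Fin N → ℝ => eval x P := MvPolynomial.continuous_eval P
    exact this.comp (by fun_prop)
  have h0 : eval (γ 0) P = eval u P := by
    congr 2
    funext i
    simp [γ]
  have h1' : eval (γ 1) P = eval w P := by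
    congr 2
    funext i
    simp [γ]
  have hiv := intermediate_value_Icc' (zero_le_one' ℝ) hc
  have hmem : (0 : ℝ) ∈ Set.Icc (eval (γ 1) P) (eval (γ 0) P) := by
    rw [h0, h1']
    exact ⟨h2.le, h1.le⟩
  obtain ⟨t, ht, hz⟩ := hiv hmem
  refine ⟨γ t, fun i => ?_, hz⟩
  have e : γ t i - y i = (1 - t) * (u i - y i) + t * (w i - y i) := by
    simp only [γ]
    ring
  rw [e]
  have ht0 := ht.1
  have ht1 := ht.2
  have hu' := abs_lt.mp (hu i)
  have hw' := abs_lt.mp (hw i)
  rw [abs_lt]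
  constructor
  · by_cases h : t = 0
    · subst h
      linarith
    · have : 0 < t := lt_of_le_of_ne ht0 (Ne.symm h)
      nlinarith
  · by_cases h : t = 0
    · subst h
      linarith
    · have : 0 < t := lt_of_le_of_ne ht0 (Ne.symm h)
      nlinarith

theorem coeff_mul_eq (P r : MvPolynomial (Fin N) ℝ) (s : Fin N →₀ ℕ) :
    coeff s (P * r) = ∑ h ∈ r.support, coeff h r * coeff s (P * monomial h 1) := by
  have h1 : P * r = ∑ h ∈ r.support, P * monomial h (coeff h r) := by
    rw [← Finset.mul_sum, ← r.as_sum]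
  rw [h1, coeff_sum]
  refine Finset.sum_congr rfl fun h _ => ?_
  have : monomial h (coeff h r) = C (coeff h r) * monomial h 1 := by
    rw [C_mul_monomial, mul_one]
  rw [this, mul_left_comm, coeff_C_mul]

theorem sum_sq_eq {E S : Finset (Fin N →₀ ℕ)} (c : E → ℝ) (v : S → ℝ)
    (r : MvPolynomial (Fin N) ℝ) (hr : poly v = poly c * r) :
    ∑ s, v s ^ 2 = ∑ h ∈ r.support, coeff h r * gram c v h := by
  have h1 : ∀ s : S, v s ^ 2 = ∑ h ∈ r.support, coeff h r * (v s *
      coeff (s : Fin N →₀ ℕ) (poly c * monomial h 1)) := by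
    intro s
    have h2 : v s = coeff (s : Fin N →₀ ℕ) (poly c * r) := by
      rw [← hr, coeff_poly]
    calc v s ^ 2 = v s * v s := sq _
      _ = v s * ∑ h ∈ r.support,
          coeff h r * coeff (s : Fin N →₀ ℕ) (poly c * monomial h 1) :=
        congrArg (v s * ·) (h2.trans (coeff_mul_eq _ _ _))
      _ = _ := by
        rw [Finset.mul_sum]
        exact Finset.sum_congr rfl fun h _ => mul_left_comm _ _ _
  simp only [h1]
  rw [Finset.sum_comm]
  unfold gram
  simp only [Finset.mul_sum]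

theorem le_degree_poly {E : Finset (Fin N →₀ ℕ)} (c : E → ℝ) (m : E) (hm : c m ≠ 0) :
    (m : Fin N →₀ ℕ).degree ≤ (poly c).totalDegree := by
  have h1 : (m : Fin N →₀ ℕ) ∈ (poly c).support := by
    rw [mem_support_iff, coeff_poly]
    exact hm
  have h2 := le_totalDegree h1
  rwa [sum_eq_degree] at h2

end Cpt

open Cpt in
/-- CPT. A uniform statement for compact sets of polynomials. -/
theorem compact {N : ℕ}
    (halg : ∀ P g : MvPolynomial (Fin N) ℝ, Irreducible P → (∃ a : Fin N → ℝ, 0 < eval a P) →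
      (∃ b : Fin N → ℝ, eval b P < 0) → (∀ y : Fin N → ℝ, IsSgn P y → eval y g = 0) → P ∣ g)
    (E : Finset (Fin N →₀ ℕ)) (m₀ : E)
    (hm₀ : ∀ m ∈ E, m.sum (fun _ e => e) ≤ (m₀ : Fin N →₀ ℕ).sum fun _ e => e) (D : ℕ)
    (K : Set (E → ℝ)) (hK : IsCompact K) (hirr : ∀ c ∈ K, Irreducible (poly c))
    (hpos : ∀ c ∈ K, ∃ a : Fin N → ℝ, 0 < eval a (poly c))
    (hneg : ∀ c ∈ K, ∃ b : Fin N → ℝ, eval b (poly c) < 0) (hm : ∀ c ∈ K, c m₀ ≠ 0) :
    ∃ m : ℕ, 0 < m ∧ ∀ c ∈ K, ∀ g : MvPolynomial (Fin N) ℝ, g.totalDegree ≤ D →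
      (∀ y : Fin N → ℝ, (∀ i, |y i| ≤ m) → eval y (poly c) = 0 →
        ∃ x : Fin N → ℝ, (∀ i, |x i - y i| ≤ 1 / m) ∧ eval x (poly c) = 0 ∧ eval x g = 0) →
      poly c ∣ g := by
  classical
  by_contra hcon
  push Not at hcon
  set d₀ : ℕ := (m₀ : Fin N →₀ ℕ).degree with hd₀
  have hE : ∀ m ∈ E, m.degree ≤ d₀ := by
    intro m hm
    have := hm₀ m hm
    rwa [sum_eq_degree, sum_eq_degree] at this
  set M : ℕ := d₀ + D with hM
  -- the normalised sequence
  have hseq : ∀ n : ℕ, ∃ p : (E → ℝ) × (expo N M → ℝ), p.1 ∈ K ∧ ∑ s, p.2 s ^ 2 = 1 ∧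
      (∀ h ∈ expo N D, gram p.1 p.2 h = 0) ∧
      ∀ y : Fin N → ℝ, (∀ i, |y i| ≤ (n + 1 : ℕ)) → eval y (poly p.1) = 0 →
        ∃ x : Fin N → ℝ, (∀ i, |x i - y i| ≤ 1 / (n + 1 : ℕ)) ∧ eval x (poly p.1) = 0 ∧
          eval x (poly p.2) = 0 := by
    intro n
    obtain ⟨c, hc, g, hg, hprop, hdvd⟩ := hcon (n + 1) (Nat.succ_pos n)
    obtain ⟨v, hv1, hv2, hv3⟩ := normalise c D M (by omega)
      (fun m hm => by have := hE m hm; omega) g hg hdvd
    refine ⟨(c, v), hc, hv1, hv2, fun y hy hy0 => ?_⟩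
    obtain ⟨x, hx1, hx2, hx3⟩ := hprop y hy hy0
    exact ⟨x, hx1, hx2, hv3 x hx2 hx3⟩
  choose p hpK hpn hpg hpx using hseq
  -- the compact set
  set T : Set ((E → ℝ) × (expo N M → ℝ)) :=
    (K ×ˢ Set.pi Set.univ (fun _ => Set.Icc (-1) 1)) ∩
      ({q | ∑ s, q.2 s ^ 2 = 1} ∩ ⋂ h ∈ expo N D, {q | gram q.1 q.2 h = 0}) with hT
  have hTc : IsCompact T := by
    refine (hK.prod (isCompact_univ_pi fun _ => isCompact_Icc)).inter_right ?_
    refine IsClosed.inter ?_ ?_
    · exact isClosed_eq (by fun_prop) continuous_const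
    · refine isClosed_biInter fun h _ => ?_
      exact isClosed_eq (cont_gram E (expo N M) h) continuous_const
  have hpT : ∀ n, p n ∈ T := by
    intro n
    refine ⟨⟨hpK n, ?_⟩, hpn n, ?_⟩
    · intro s _
      have h1 : (p n).2 s ^ 2 ≤ 1 := by
        rw [← hpn n]
        exact Finset.single_le_sum (f := fun s => (p n).2 s ^ 2) (fun _ _ => sq_nonneg _)
          (Finset.mem_univ s)
      have h2 := abs_le_one_iff_mul_self_le_one.mpr (by nlinarith : (p n).2 s * (p n).2 s ≤ 1)
      exact abs_le.mp h2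
    · simp only [Set.mem_iInter]
      exact fun h hh => hpg n h hh
  obtain ⟨q, hqT, φ, hφ, hlim⟩ := hTc.tendsto_subseq hpT
  obtain ⟨⟨hqK, -⟩, hq1, hqg⟩ := hqT
  simp only [Set.mem_iInter] at hqg
  -- the limit vanishes at the changes of sign
  have hvan : ∀ y : Fin N → ℝ, IsSgn (poly q.1) y → eval y (poly q.2) = 0 := by
    intro y hy
    by_contra hne
    have hcont2 : ContinuousAt (fun r : (expo N M → ℝ) × (Fin N → ℝ) => eval r.2 (poly r.1))
      (q.2, y) := (cont_eval (expo N M)).continuousAt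
    have hev : ∀ᶠ r : (expo N M → ℝ) × (Fin N → ℝ) in 𝓝 (q.2, y), eval r.2 (poly r.1) ≠ 0 :=
      hcont2.eventually_ne hne
    rw [nhds_prod_eq, eventually_prod_iff] at hev
    obtain ⟨pa, hpa, pb, hpb, hab⟩ := hev
    obtain ⟨δ, hδ, hball⟩ := Metric.eventually_nhds_iff.mp hpb
    have hlim2 : Tendsto (fun n => (p (φ n)).2) atTop (𝓝 q.2) :=
      (continuous_snd.tendsto q).comp hlim
    have hlim1 : Tendsto (fun n => (p (φ n)).1) atTop (𝓝 q.1) :=
      (continuous_fst.tendsto q).comp hlim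
    obtain ⟨⟨u, hu, hu0⟩, ⟨w, hw, hw0⟩⟩ := hy (δ / 2) (by positivity)
    have hcu : ∀ x : Fin N → ℝ, Tendsto (fun n => eval x (poly (p (φ n)).1)) atTop
        (𝓝 (eval x (poly q.1))) := by
      intro x
      exact ((cont_eval_left E x).tendsto q.1).comp hlim1
    have e1 : ∀ᶠ n in atTop, 0 < eval u (poly (p (φ n)).1) := (hcu u).eventually_const_lt hu0
    have e2 : ∀ᶠ n in atTop, eval w (poly (p (φ n)).1) < 0 := (hcu w).eventually_lt_const hw0
    have e3 : ∀ᶠ n in atTop, pa (p (φ n)).2 := hlim2.eventually hpa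
    obtain ⟨B, hB⟩ : ∃ B : ℝ, ∀ i, |y i| ≤ B := by
      refine ⟨∑ i, |y i|, fun i => ?_⟩
      exact Finset.single_le_sum (f := fun i => |y i|) (fun _ _ => abs_nonneg _) (Finset.mem_univ i)
    obtain ⟨n₀, hn₀⟩ := exists_nat_gt (max (B + δ) (2 / δ))
    have e4 : ∀ᶠ n in atTop, n₀ ≤ n := eventually_ge_atTop n₀
    obtain ⟨n, h1, h2, h3, h4⟩ := (e1.and (e2.and (e3.and e4))).exists
    have hbig : (n₀ : ℝ) ≤ (φ n + 1 : ℕ) := by
      have : n₀ ≤ φ n + 1 := h4.trans ((hφ.id_le n).trans (Nat.le_succ _))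
      exact_mod_cast this
    have hb1 : B + δ < (φ n + 1 : ℕ) := lt_of_lt_of_le ((le_max_left _ _).trans_lt hn₀) hbig
    have hb2 : 2 / δ < (φ n + 1 : ℕ) := lt_of_lt_of_le ((le_max_right _ _).trans_lt hn₀) hbig
    have hb3 : 1 / ((φ n + 1 : ℕ) : ℝ) < δ / 2 := by
      have hpos : (0 : ℝ) < 2 / δ := by positivity
      have := one_div_lt_one_div_of_lt hpos hb2
      rwa [one_div_div] at this
    obtain ⟨z, hz, hz0⟩ := exists_zero (poly (p (φ n)).1) u w y (δ / 2) hu hw h1 h2
    have hzB : ∀ i, |z i| ≤ (φ n + 1 : ℕ) := by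
      intro i
      have a1 := hz i
      have a2 := hB i
      have a3 : |z i| ≤ |z i - y i| + |y i| := by
        calc |z i| = |(z i - y i) + y i| := by ring_nf
          _ ≤ _ := abs_add_le _ _
      linarith
    obtain ⟨x, hx1, hx2, hx3⟩ := hpx (φ n) z hzB hz0
    have hxy : dist x y < δ := by
      rw [dist_pi_lt_iff hδ]
      intro i
      rw [Real.dist_eq]
      have a1 := hz i
      have a2 := hx1 i
      have a3 : |x i - y i| ≤ |x i - z i| + |z i - y i| := abs_sub_le _ _ _
      linarith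
    exact hab h3 (hball hxy) hx3
  obtain ⟨r, hr⟩ := halg (poly q.1) (poly q.2) (hirr _ hqK) (hpos _ hqK) (hneg _ hqK) hvan
  have hq0 : poly q.2 ≠ 0 := by
    intro h0
    have h1 : ∀ s, q.2 s = 0 := by
      intro s
      exact (coeff_poly q.2 s).symm.trans (by rw [h0, coeff_zero])
    have h2 : ∑ s, q.2 s ^ 2 = 1 := hq1
    simp [h1] at h2
  have hc0 : poly q.1 ≠ 0 := by
    intro h
    rw [h, zero_mul] at hr
    exact hq0 hr
  have hr0 : r ≠ 0 := by
    rintro rfl
    rw [mul_zero] at hr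
    exact hq0 hr
  have hdeg1 : d₀ ≤ (poly q.1).totalDegree := le_degree_poly q.1 m₀ (hm _ hqK)
  have hdeg2 : (poly q.2).totalDegree ≤ M :=
    totalDegree_poly_le _ _ fun m hm => mem_expo.mp hm
  have hdeg3 : r.totalDegree ≤ D := by
    rw [hr, totalDegree_mul_of_isDomain hc0 hr0] at hdeg2
    omega
  have hsum : ∑ s, q.2 s ^ 2 = ∑ h ∈ r.support, coeff h r * gram q.1 q.2 h :=
    sum_sq_eq q.1 q.2 r hr
  have h1 : ∑ s, q.2 s ^ 2 = 1 := hq1
  rw [hsum, Finset.sum_eq_zero] at h1
  · exact zero_ne_one h1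
  · intro h hh
    have : gram q.1 q.2 h = 0 := hqg h (support_subset hdeg3 hh)
    rw [this, mul_zero]

end Pool.ZD
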